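import Pool.Agent.N659.HB.Stm6

/-!
Part FOLD of the project LD (helper659): folding of the tails of a law.
-/

namespace Pool.Agent.N335.LD.Fold

open MeasureTheory Filter Pool.Agent.W792.LL Pool.Agent.W792.WA Pool.Agent.N659.HB
open scoped Topology ENNReal

noncomputable section

theorem fold_meas (R : ℝ) : Measurable (fold R) := by
  unfold fold
  exact Measurable.ite (measurableSet_le measurable_id.abs measurable_const) measurable_id
    (measurable_const.div measurable_id)

theorem fold_le {R : ℝ} (hR : 0 < R) (v : ℝ) : |fold R v| ≤ R := by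
  unfold fold
  split_ifs with h
  · exact h
  · have h1 : R < |v| := not_le.mp h
    rw [abs_div, abs_of_pos (by positivity : (0 : ℝ) < R ^ 2), div_le_iff₀ (hR.trans h1)]
    nlinarith

theorem fold_scale {c R : ℝ} (hc : 0 < c) (v : ℝ) :
    c * fold R v = fold (c * R) (c * v) := by
  unfold fold
  have h1 : |c * v| = c * |v| := by rw [abs_mul, abs_of_pos hc]
  have h2 : (|c * v| ≤ c * R) ↔ |v| ≤ R := by
    rw [h1]; exact mul_le_mul_iff_right₀ hc
  by_cases h : |v| ≤ R
  · rw [if_pos h, if_pos (h2.mpr h)]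
  · rw [if_neg h, if_neg (fun h' => h (h2.mp h'))]
    by_cases hv : v = 0
    · subst hv; simp
    · field_simp

theorem cyl_scale (μ : Measure ℝ) [IsProbabilityMeasure μ] (δ c : ℝ) :
    (cyl μ δ).map (fun x => c * x) = cyl (μ.map fun x => c * x) (c * δ) := by
  unfold cyl
  have hm : Measurable fun x : ℝ => c * x := by fun_prop
  have hp : Measurable fun p : ℝ × ℝ => p.1 + δ * p.2 := by fun_prop
  have hq : Measurable fun p : ℝ × ℝ => p.1 + c * δ * p.2 := by fun_prop
  rw [Measure.map_map hm hp]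
  have h1 : (μ.map fun x => c * x).prod (ProbabilityTheory.cauchyMeasure 0 1)
      = (μ.prod (ProbabilityTheory.cauchyMeasure 0 1)).map
        (Prod.map (fun x => c * x) id) := by
    rw [← Measure.map_prod_map _ _ hm measurable_id, Measure.map_id]
  rw [h1, Measure.map_map hq (hm.prodMap measurable_id)]
  congr 1
  funext p
  simp only [Function.comp, Prod.map, id]
  ring

theorem tail (μ : Measure ℝ) [IsProbabilityMeasure μ] :
    Tendsto (fun R : ℝ => μ {v | R < |v|}) atTop (𝓝 0) := by
  have hm : Antitone fun R : ℝ => {v : ℝ | R < |v|} := by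
    intro a b hab v hv
    exact lt_of_le_of_lt hab hv
  have h := tendsto_measure_iInter_atTop (μ := μ) (s := fun R : ℝ => {v : ℝ | R < |v|})
    (fun R => (measurableSet_lt measurable_const measurable_id.abs).nullMeasurableSet) hm
    ⟨0, measure_ne_top _ _⟩
  have he : (⋂ R : ℝ, {v : ℝ | R < |v|}) = ∅ := by
    ext v
    simp only [Set.mem_iInter, Set.mem_ofPred_eq, Set.mem_empty_iff_false, iff_false, not_forall,
      not_lt]
    exact ⟨|v|, le_rfl⟩
  rw [he, measure_empty] at h
  exact h

theorem cay_norm (v : ℝ) : ‖cay v‖ = 1 := by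
  unfold cay
  have h1 : (v : ℂ) - Complex.I = (starRingEnd ℂ) ((v : ℂ) + Complex.I) := by
    simp [sub_eq_add_neg]
  rw [h1, norm_div, RCLike.norm_conj]
  refine div_self ?_
  intro h
  have h2 := norm_eq_zero.mp h
  have h3 := congrArg Complex.im h2
  simp at h3

theorem cd_le (X : MX) (R : ℝ) :
    cd X ⟨fun u => fold R (X.1 u), (fold_meas R).comp X.2⟩
      ≤ 4 * (qlaw X {v | R < |v|}).toReal := by
  have hset : MeasurableSet {v : ℝ | R < |v|} :=
    measurableSet_lt measurable_const measurable_id.abs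
  have hpre : MeasurableSet (X.1 ⁻¹' {v : ℝ | R < |v|}) := X.2 hset
  have h1 : ∀ u, ‖cay (X.1 u) - cay (fold R (X.1 u))‖ ^ 2
      ≤ (X.1 ⁻¹' {v : ℝ | R < |v|}).indicator (fun _ => (4 : ℝ)) u := by
    intro u
    by_cases hu : u ∈ X.1 ⁻¹' {v : ℝ | R < |v|}
    · rw [Set.indicator_of_mem hu]
      have h2 : ‖cay (X.1 u) - cay (fold R (X.1 u))‖ ≤ 2 := by
        refine (norm_sub_le _ _).trans ?_
        rw [cay_norm, cay_norm]; norm_num
      nlinarith [norm_nonneg (cay (X.1 u) - cay (fold R (X.1 u)))]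
    · rw [Set.indicator_of_notMem hu]
      have h3 : |X.1 u| ≤ R := not_lt.mp hu
      have h4 : fold R (X.1 u) = X.1 u := by unfold fold; rw [if_pos h3]
      rw [h4]; simp
  have hprob : IsProbabilityMeasure (volume.restrict (Set.Ioc (0 : ℝ) 1)) := ⟨by simp⟩
  unfold cd
  calc ∫ u in Set.Ioc (0 : ℝ) 1, ‖cay (X.1 u) - cay (fold R (X.1 u))‖ ^ 2
      ≤ ∫ u in Set.Ioc (0 : ℝ) 1, (X.1 ⁻¹' {v : ℝ | R < |v|}).indicator (fun _ => (4 : ℝ)) u := by
        apply integral_mono_of_nonneg
        · exact Eventually.of_forall fun u => by positivity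
        · exact (integrable_const (4 : ℝ)).indicator hpre
        · exact Eventually.of_forall h1
    _ = 4 * (qlaw X {v | R < |v|}).toReal := by
        rw [integral_indicator hpre, setIntegral_const, smul_eq_mul, mul_comm]
        congr 1
        unfold qlaw
        rw [Measure.map_apply X.2 hset]
        rfl

/-- Part FOLD. -/
theorem main : S_QNT2 → S_FOLD := by
  intro hq μ _ δ hδ
  refine ⟨fun R hR => ⟨fold_meas R, fold_le hR⟩, fun c R v hc _ => fold_scale hc v,
    fun c _ => cyl_scale μ δ c, tail _, ?_⟩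
  obtain ⟨X, -, hX⟩ := hq (cyl μ δ)
  refine ⟨X, hX, fun R hR => ⟨⟨fun u => fold R (X.1 u), (fold_meas R).comp X.2⟩, ?_, ?_⟩⟩
  · rw [← hX]
    unfold qlaw
    rw [Measure.map_map (fold_meas R) X.2]
    rfl
  · rw [← hX]
    exact cd_le X R

end

end Pool.Agent.N335.LD.Fold
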